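import Pool.Agent.H23.FT.Main

/-!
# Finite type invariants up to PL isotopy and nilpotent peripheral structures

Links in the 3-sphere with `k` ordered oriented components are given as closed braids
(`H23.FT.Link`). PL isotopy is the equivalence relation generated by `H23.FT.Step`: braid
relations, conjugation by a letter, and insertion of a local knot (for the trivial knot on one
strand this is Markov stabilisation). `H23.FT.TypeLE N v`: `v` vanishes on the singular links with
more than `N` double points.
-/

namespace Pool.Agent.Results.MP_94676d_gt.NilpotentPeripheral

open H23.FT

/-- If no finite type invariant with values in a finite cyclic group of prime power order which is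
well-defined up to PL isotopy separates the links `L` and `L'`, then, for every finite nilpotent
group `G`, the numbers of homomorphisms from the link groups to `G` with given values (up to
conjugation) on the pairs of the meridian and the longitude of each component agree; hence every
homomorphism from the group of `L` to `G` has a counterpart for `L'`; and hence, if `L'` is the
trivial link, every homomorphism from the group of `L` to `G` kills the longitudes of `L`. -/
theorem result {k : ℕ} (L L' : Link k)
    (h : ∀ p e : ℕ, p.Prime → ∀ v : Link k → ZMod (p ^ e),
      FiniteType v → PLInvariant v → v L = v L')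
    (G : Type*) [Group G] [Finite G] [Group.IsNilpotent G] :
    (∀ a b : Fin k → G, peripheralCount L a b = peripheralCount L' a b) ∧
    (∀ ρ : LinkGroup L →* G, ∃ (ρ' : LinkGroup L' →* G) (g : Fin k → G), ∀ c,
      ρ' (meridian L' c) = g c * ρ (meridian L c) * (g c)⁻¹ ∧
      ρ' (longitude L' c) = g c * ρ (longitude L c) * (g c)⁻¹) ∧
    (L'.word = [] → ∀ (ρ : LinkGroup L →* G) (c : Fin k), ρ (longitude L c) = 1) := by
  have h' : NotSeparated L L' := h
  refine ⟨fun a b => peripheralCount_eq h' a b, fun ρ => exists_hom h' ρ, fun hL' ρ c => ?_⟩
  obtain ⟨ρ', g, hq⟩ := exists_hom h' ρ
  have h1 := (hq c).2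
  rw [longitude_trivial L' hL' c, map_one] at h1
  have h2 : ρ (longitude L c) = (g c)⁻¹ * 1 * g c := by rw [h1]; group
  rw [h2]
  group

end Pool.Agent.Results.MP_94676d_gt.NilpotentPeripheral
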